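import Pool.Agent.N659.HB.Stm3

/-!
Polynomial chaos for a general law with mean zero on a finite set.
-/

namespace Pool.Agent.N79.KS.CG2

open MeasureTheory Pool.Agent.N659.HB

noncomputable section

/-- The truncation. -/
def cl (t : ℝ) : ℝ := max (-1) (min 1 t)

theorem cl_meas : Measurable cl := by
  unfold cl; fun_prop

theorem cl_abs (t : ℝ) : |cl t| ≤ 1 := by
  unfold cl
  rw [abs_le]
  exact ⟨le_max_left _ _, max_le (by norm_num) (min_le_left _ _)⟩

theorem cl_eq {t : ℝ} (h : |t| ≤ 1) : cl t = t := by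
  unfold cl
  rw [abs_le] at h
  rw [min_eq_right h.2, max_eq_right h.1]

variable {Λ : Type} [Fintype Λ] [DecidableEq Λ] (ν : Measure ℝ) [IsProbabilityMeasure ν]

/-- The product measure. -/
abbrev PP (Λ : Type) [Fintype Λ] (ν : Measure ℝ) : Measure (Λ → ℝ) := Measure.pi fun _ : Λ => ν

/-- Bounded measurable functions. -/
def BM (Λ : Type) : Submodule ℂ ((Λ → ℝ) → ℂ) where
  carrier := {F | Measurable F ∧ ∃ C : ℝ, ∀ u, ‖F u‖ ≤ C}
  add_mem' := by
    rintro a b ⟨ha, C, hC⟩ ⟨hb, D, hD⟩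
    exact ⟨ha.add hb, C + D, fun u => (norm_add_le _ _).trans (add_le_add (hC u) (hD u))⟩
  zero_mem' := ⟨measurable_const, 0, fun u => by simp⟩
  smul_mem' := by
    rintro c a ⟨ha, C, hC⟩
    refine ⟨ha.const_smul c, ‖c‖ * C, fun u => ?_⟩
    simp only [Pi.smul_apply, smul_eq_mul, norm_mul]
    exact mul_le_mul_of_nonneg_left (hC u) (norm_nonneg _)

/-- The average over one coordinate. -/
def Ey (y : Λ) (F : (Λ → ℝ) → ℂ) (u : Λ → ℝ) : ℂ := ∫ t, F (Function.update u y t) ∂ν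

omit [Fintype Λ] in
theorem upd_meas (y : Λ) : Measurable fun p : (Λ → ℝ) × ℝ => Function.update p.1 y p.2 := by
  rw [measurable_pi_iff]
  intro x
  by_cases hx : x = y
  · subst hx; simpa using measurable_snd
  · simp only [Function.update_of_ne hx]
    exact (measurable_pi_apply x).comp measurable_fst

omit [Fintype Λ] in
theorem upd_meas' (y : Λ) (u : Λ → ℝ) : Measurable fun t : ℝ => Function.update u y t :=
  (upd_meas y).comp (measurable_const.prodMk measurable_id)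

omit [Fintype Λ] in
theorem int_upd {F : (Λ → ℝ) → ℂ} (hF : F ∈ BM Λ) (y : Λ) (u : Λ → ℝ) :
    Integrable (fun t => F (Function.update u y t)) ν := by
  obtain ⟨hm, C, hC⟩ := hF
  exact Integrable.of_bound ((hm.comp (upd_meas' y u)).aestronglyMeasurable) C
    (Filter.Eventually.of_forall fun t => hC _)

theorem int_BM {F : (Λ → ℝ) → ℂ} (hF : F ∈ BM Λ) : Integrable F (PP Λ ν) := by
  obtain ⟨hm, C, hC⟩ := hF
  exact Integrable.of_bound hm.aestronglyMeasurable C (Filter.Eventually.of_forall fun t => hC _)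

omit [Fintype Λ] in
theorem Ey_mem {F : (Λ → ℝ) → ℂ} (hF : F ∈ BM Λ) (y : Λ) : Ey ν y F ∈ BM Λ := by
  obtain ⟨hm, C, hC⟩ := hF
  refine ⟨?_, C, fun u => ?_⟩
  · have h := StronglyMeasurable.integral_prod_right' (ν := ν)
      ((hm.comp (upd_meas y)).stronglyMeasurable)
    exact h.measurable
  · unfold Ey
    refine (norm_integral_le_of_norm_le_const (Filter.Eventually.of_forall fun t => hC _)).trans ?_
    simp

/-- The update map preserves the measure. -/
theorem upd_map (y : Λ) :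
    ((PP Λ ν).prod ν).map (fun p : (Λ → ℝ) × ℝ => Function.update p.1 y p.2) = PP Λ ν := by
  symm
  refine Measure.pi_eq fun s hs => ?_
  rw [Measure.map_apply (upd_meas y) (MeasurableSet.univ_pi hs)]
  have h : (fun p : (Λ → ℝ) × ℝ => Function.update p.1 y p.2) ⁻¹' (Set.univ.pi s)
      = (Set.univ.pi (Function.update s y Set.univ)) ×ˢ (s y) := by
    ext ⟨u, t⟩
    simp only [Set.mem_preimage, Set.mem_pi, Set.mem_univ, true_implies, Set.mem_prod]
    constructor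
    · intro h
      refine ⟨fun i => ?_, by simpa using h y⟩
      by_cases hi : i = y
      · subst hi; simp
      · have := h i
        rw [Function.update_of_ne hi] at this
        rwa [Function.update_of_ne hi]
    · rintro ⟨h1, h2⟩ i
      by_cases hi : i = y
      · subst hi; simpa using h2
      · have := h1 i
        rw [Function.update_of_ne hi] at this
        rwa [Function.update_of_ne hi]
  rw [h, Measure.prod_prod, Measure.pi_pi]
  rw [← Finset.prod_erase_mul (a := y) _ _ (Finset.mem_univ y),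
    ← Finset.prod_erase_mul (a := y) _ _ (Finset.mem_univ y)]
  simp only [Function.update_self, measure_univ, mul_one]
  congr 1
  refine Finset.prod_congr rfl fun i hi => ?_
  rw [Function.update_of_ne (Finset.ne_of_mem_erase hi)]

theorem int_Ey {F : (Λ → ℝ) → ℂ} (hF : F ∈ BM Λ) (y : Λ) :
    ∫ u, F u ∂(PP Λ ν) = ∫ u, Ey ν y F u ∂(PP Λ ν) := by
  conv_lhs => rw [← upd_map ν y]
  rw [integral_map (upd_meas y).aemeasurable hF.1.aestronglyMeasurable]
  rw [integral_prod]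
  · rfl
  · obtain ⟨hm, C, hC⟩ := hF
    exact Integrable.of_bound (hm.comp (upd_meas y)).aestronglyMeasurable C
      (Filter.Eventually.of_forall fun t => hC _)

omit [Fintype Λ] in
theorem Ey_comm {F : (Λ → ℝ) → ℂ} (hF : F ∈ BM Λ) {x y : Λ} (hxy : x ≠ y) (u : Λ → ℝ) :
    Ey ν x (Ey ν y F) u = Ey ν y (Ey ν x F) u := by
  unfold Ey
  have h : ∀ s t : ℝ, Function.update (Function.update u x s) y t
      = Function.update (Function.update u y t) x s := fun s t =>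
    Function.update_comm hxy _ _ _
  simp only [h]
  obtain ⟨hm, C, hC⟩ := hF
  refine integral_integral_swap ?_
  refine Integrable.of_bound ?_ C (Filter.Eventually.of_forall fun t => hC _)
  refine (hm.comp ?_).aestronglyMeasurable
  have h1 : Measurable fun p : ℝ × ℝ => ((Function.update u y p.2, p.1) : (Λ → ℝ) × ℝ) :=
    ((upd_meas' y u).comp measurable_snd).prodMk measurable_fst
  exact (upd_meas x).comp h1

/-- Dependence on the coordinates in a set only. -/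
def Dep (S : Finset Λ) (F : (Λ → ℝ) → ℂ) : Prop :=
  ∀ u v : Λ → ℝ, (∀ x ∈ S, u x = v x) → F u = F v

omit [Fintype Λ] in
theorem Dep.upd {S : Finset Λ} {F : (Λ → ℝ) → ℂ} (h : Dep S F) {y : Λ} (hy : y ∉ S) (u : Λ → ℝ)
    (t : ℝ) : F (Function.update u y t) = F u := by
  refine h _ _ fun x hx => ?_
  rw [Function.update_of_ne]
  rintro rfl
  exact hy hx

omit [Fintype Λ] in
theorem Dep.mono {S S' : Finset Λ} {F : (Λ → ℝ) → ℂ} (h : Dep S F) (hS : S ⊆ S') : Dep S' F :=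
  fun u v huv => h u v fun x hx => huv x (hS hx)

omit [Fintype Λ] in
theorem Dep.Ey {S : Finset Λ} {F : (Λ → ℝ) → ℂ} (h : Dep S F) (y : Λ) :
    Dep (S.erase y) (Ey ν y F) := by
  intro u v huv
  unfold CG2.Ey
  congr 1
  ext t
  refine h _ _ fun x hx => ?_
  by_cases hxy : x = y
  · subst hxy; simp
  · rw [Function.update_of_ne hxy, Function.update_of_ne hxy]
    exact huv x (Finset.mem_erase.mpr ⟨hxy, hx⟩)

/-- Multiplication by the truncated coordinate. -/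
def mu (y : Λ) (F : (Λ → ℝ) → ℂ) (u : Λ → ℝ) : ℂ := (cl (u y) : ℂ) * F u

omit [Fintype Λ] [DecidableEq Λ] in
theorem mu_mem {F : (Λ → ℝ) → ℂ} (hF : F ∈ BM Λ) (y : Λ) : mu y F ∈ BM Λ := by
  obtain ⟨hm, C, hC⟩ := hF
  refine ⟨?_, C, fun u => ?_⟩
  · unfold mu
    exact (Complex.measurable_ofReal.comp (cl_meas.comp (measurable_pi_apply y))).mul hm
  · unfold mu
    rw [norm_mul, Complex.norm_real, Real.norm_eq_abs]
    calc |cl (u y)| * ‖F u‖ ≤ 1 * ‖F u‖ :=
          mul_le_mul_of_nonneg_right (cl_abs _) (norm_nonneg _)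
      _ ≤ C := by rw [one_mul]; exact hC u

/-- The complementary projection. -/
def Qy (y : Λ) (F : (Λ → ℝ) → ℂ) (u : Λ → ℝ) : ℂ := F u - Ey ν y F u

omit [Fintype Λ] in
theorem Qy_mem {F : (Λ → ℝ) → ℂ} (hF : F ∈ BM Λ) (y : Λ) : Qy ν y F ∈ BM Λ :=
  (BM Λ).sub_mem hF (Ey_mem ν hF y)

/-- The linear combination. -/
def Hh (T : Λ → Λ → ℂ) (A : Λ → Finset Λ → (Λ → ℝ) → ℂ) (y : Λ) (S : Finset Λ) (u : Λ → ℝ) : ℂ :=
  ∑ y', T y y' * A y' S u

/-- The chaos components. -/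
def Gg (T : Λ → Λ → ℂ) (f : Λ → ℂ) : ℕ → Λ → Finset Λ → (Λ → ℝ) → ℂ
  | 0, y, S => if S = {y} then mu y (fun _ => f y) else fun _ => 0
  | (k + 1), y, S =>
    if y ∈ S then
      fun u => mu y (Hh T (Gg T f k) y (S.erase y)) u + Qy ν y (mu y (Hh T (Gg T f k) y S)) u
    else Ey ν y (mu y (Hh T (Gg T f k) y (insert y S)))

omit [DecidableEq Λ] in
theorem Hh_mem (T : Λ → Λ → ℂ) (A : Λ → Finset Λ → (Λ → ℝ) → ℂ) (hA : ∀ y S, A y S ∈ BM Λ) (y : Λ)
    (S : Finset Λ) : Hh T A y S ∈ BM Λ := by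
  have h : Hh T A y S = ∑ y', T y y' • A y' S := by
    ext u
    simp [Hh, Finset.sum_apply]
  rw [h]
  exact Submodule.sum_mem _ fun y' _ => Submodule.smul_mem _ _ (hA y' S)

theorem Gg_mem (T : Λ → Λ → ℂ) (f : Λ → ℂ) (k : ℕ) : ∀ (y : Λ) (S : Finset Λ),
    Gg ν T f k y S ∈ BM Λ := by
  induction k with
  | zero =>
    intro y S
    unfold Gg
    split_ifs
    · exact mu_mem ⟨measurable_const, ‖f y‖, fun _ => le_rfl⟩ y
    · exact (BM Λ).zero_mem
  | succ k ih =>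
    intro y S
    unfold Gg
    split_ifs
    · exact (BM Λ).add_mem (mu_mem (Hh_mem T _ ih y _) y)
        (Qy_mem ν (mu_mem (Hh_mem T _ ih y _) y) y)
    · exact Ey_mem ν (mu_mem (Hh_mem T _ ih y _) y) y

omit [DecidableEq Λ] in
theorem Hh_dep (T : Λ → Λ → ℂ) (A : Λ → Finset Λ → (Λ → ℝ) → ℂ) (hA : ∀ y S, Dep S (A y S)) (y : Λ)
    (S : Finset Λ) : Dep S (Hh T A y S) := by
  intro u v huv
  unfold Hh
  exact Finset.sum_congr rfl fun y' _ => by rw [hA y' S u v huv]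

omit [Fintype Λ] [DecidableEq Λ] in
theorem mu_dep {F : (Λ → ℝ) → ℂ} {S : Finset Λ} (hF : Dep S F) {y : Λ} (hy : y ∈ S) :
    Dep S (mu y F) := by
  intro u v huv
  unfold mu
  rw [hF u v huv, huv y hy]

theorem Gg_dep (T : Λ → Λ → ℂ) (f : Λ → ℂ) (k : ℕ) : ∀ (y : Λ) (S : Finset Λ),
    Dep S (Gg ν T f k y S) := by
  induction k with
  | zero =>
    intro y S
    unfold Gg
    split_ifs with h
    · subst h
      exact mu_dep (fun u v _ => rfl) (Finset.mem_singleton_self y)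
    · exact fun u v _ => rfl
  | succ k ih =>
    intro y S
    unfold Gg
    split_ifs with hy
    · have h1 := mu_dep ((Hh_dep T _ ih y (S.erase y)).mono (Finset.erase_subset y S)) hy
      have h2 := mu_dep (Hh_dep T _ ih y S) hy
      have h3 := (h2.Ey ν y).mono (Finset.erase_subset y S)
      intro u v huv
      show _ + (_ - _) = _ + (_ - _)
      rw [h1 u v huv, h2 u v huv, h3 u v huv]
    · have h2 := mu_dep (Hh_dep T _ ih y (insert y S)) (Finset.mem_insert_self y S)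
      have h3 := h2.Ey ν y
      rwa [Finset.erase_insert hy] at h3

theorem int_cl (hb : ∀ᵐ x ∂ν, |x| ≤ 1) (h0 : ∫ x, x ∂ν = 0) : ∫ t, ((cl t : ℝ) : ℂ) ∂ν = 0 := by
  rw [integral_complex_ofReal]
  have : ∫ t, cl t ∂ν = 0 := by
    rw [← h0]
    refine integral_congr_ae ?_
    filter_upwards [hb] with t ht
    exact cl_eq ht
  rw [this]; simp

omit [Fintype Λ] in
theorem Ey_indep {F : (Λ → ℝ) → ℂ} {y : Λ} (h : ∀ u t, F (Function.update u y t) = F u)
    (u : Λ → ℝ) : Ey ν y F u = F u := by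
  unfold Ey
  simp [h]

omit [Fintype Λ] in
theorem Ey_Ey_upd (F : (Λ → ℝ) → ℂ) (y : Λ) (u : Λ → ℝ) (t : ℝ) :
    Ey ν y F (Function.update u y t) = Ey ν y F u := by
  unfold Ey
  simp

omit [Fintype Λ] in
theorem Ey_sub {F G : (Λ → ℝ) → ℂ} (hF : F ∈ BM Λ) (hG : G ∈ BM Λ) (y : Λ) (u : Λ → ℝ) :
    Ey ν y (fun v => F v - G v) u = Ey ν y F u - Ey ν y G u := by
  unfold Ey
  exact integral_sub (int_upd ν hF y u) (int_upd ν hG y u)

omit [Fintype Λ] in
theorem Ey_add {F G : (Λ → ℝ) → ℂ} (hF : F ∈ BM Λ) (hG : G ∈ BM Λ) (y : Λ) (u : Λ → ℝ) :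
    Ey ν y (fun v => F v + G v) u = Ey ν y F u + Ey ν y G u := by
  unfold Ey
  exact integral_add (int_upd ν hF y u) (int_upd ν hG y u)

omit [Fintype Λ] in
theorem Ey_Qy {F : (Λ → ℝ) → ℂ} (hF : F ∈ BM Λ) (y : Λ) (u : Λ → ℝ) :
    Ey ν y (Qy ν y F) u = 0 := by
  have h : Ey ν y (Qy ν y F) u = Ey ν y F u - Ey ν y (Ey ν y F) u :=
    Ey_sub ν hF (Ey_mem ν hF y) y u
  rw [h, Ey_indep ν (F := Ey ν y F) (fun u t => Ey_Ey_upd ν F y u t), sub_self]

omit [Fintype Λ] in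
theorem Ey_mu_ne (F : (Λ → ℝ) → ℂ) {x y : Λ} (hxy : x ≠ y) (u : Λ → ℝ) :
    Ey ν x (mu y F) u = (cl (u y) : ℂ) * Ey ν x F u := by
  unfold Ey mu
  simp only [Function.update_of_ne hxy.symm]
  rw [integral_const_mul]

theorem Ey_Hh (T : Λ → Λ → ℂ) (A : Λ → Finset Λ → (Λ → ℝ) → ℂ) (hA : ∀ y S, A y S ∈ BM Λ)
    (x y : Λ) (S : Finset Λ) (h0 : ∀ y' u, Ey ν x (A y' S) u = 0) (u : Λ → ℝ) :
    Ey ν x (Hh T A y S) u = 0 := by
  unfold Ey Hh
  rw [integral_finsetSum _ fun y' _ => (int_upd ν (hA y' S) x u).const_mul _]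
  refine Finset.sum_eq_zero fun y' _ => ?_
  rw [integral_const_mul]
  have := h0 y' u
  unfold Ey at this
  rw [this, mul_zero]

theorem Gg_mean (hb : ∀ᵐ x ∂ν, |x| ≤ 1) (h0 : ∫ x, x ∂ν = 0) (T : Λ → Λ → ℂ) (f : Λ → ℂ) (k : ℕ) :
    ∀ (y : Λ) (S : Finset Λ) (x : Λ), x ∈ S → ∀ u, Ey ν x (Gg ν T f k y S) u = 0 := by
  induction k with
  | zero =>
    intro y S x hx u
    unfold Gg
    split_ifs with h
    · subst h
      rw [Finset.mem_singleton] at hx
      subst hx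
      unfold Ey mu
      simp only [Function.update_self]
      rw [integral_mul_const, int_cl ν hb h0, zero_mul]
    · unfold Ey; simp
  | succ k ih =>
    intro y S x hx u
    have hm := Gg_mem ν T f k
    unfold Gg
    split_ifs with hy
    · rw [Ey_add ν (mu_mem (Hh_mem T _ hm y _) y) (Qy_mem ν (mu_mem (Hh_mem T _ hm y _) y) y)]
      by_cases hxy : x = y
      · subst hxy
        rw [Ey_Qy ν (mu_mem (Hh_mem T _ hm x _) x), add_zero]
        have hd := Hh_dep T _ (Gg_dep ν T f k) x (S.erase x)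
        unfold Ey mu
        simp only [Function.update_self, hd.upd (Finset.notMem_erase x S)]
        rw [integral_mul_const, int_cl ν hb h0, zero_mul]
      · rw [Ey_mu_ne ν _ hxy, Ey_Hh ν T _ hm x y (S.erase y)
          (fun y' u => ih y' (S.erase y) x (Finset.mem_erase.mpr ⟨hxy, hx⟩) u), mul_zero, zero_add]
        have hF := mu_mem (Hh_mem T _ hm y S) y
        have h1 : Ey ν x (Qy ν y (mu y (Hh T (Gg ν T f k) y S))) u
            = Ey ν x (mu y (Hh T (Gg ν T f k) y S)) u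
              - Ey ν x (Ey ν y (mu y (Hh T (Gg ν T f k) y S))) u :=
          Ey_sub ν hF (Ey_mem ν hF y) x u
        have h2 : ∀ u, Ey ν x (mu y (Hh T (Gg ν T f k) y S)) u = 0 := fun u => by
          rw [Ey_mu_ne ν _ hxy, Ey_Hh ν T _ hm x y S (fun y' u => ih y' S x hx u), mul_zero]
        rw [h1, h2, Ey_comm ν hF hxy, zero_sub, neg_eq_zero]
        unfold Ey at h2 ⊢
        simp [h2]
    · have hxy : x ≠ y := fun h => hy (h ▸ hx)
      have hF := mu_mem (Hh_mem T _ hm y (insert y S)) y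
      have h2 : ∀ u, Ey ν x (mu y (Hh T (Gg ν T f k) y (insert y S))) u = 0 := fun u => by
        rw [Ey_mu_ne ν _ hxy, Ey_Hh ν T _ hm x y (insert y S)
          (fun y' u => ih y' (insert y S) x (Finset.mem_insert_of_mem hx) u), mul_zero]
      rw [Ey_comm ν hF hxy]
      unfold Ey at h2 ⊢
      simp [h2]

/-- The involution adding or deleting a point. -/
def sw (y : Λ) : Finset Λ ≃ Finset Λ where
  toFun S := if y ∈ S then S.erase y else insert y S
  invFun S := if y ∈ S then S.erase y else insert y S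
  left_inv S := by by_cases h : y ∈ S <;> simp [h, Finset.insert_erase, Finset.erase_insert]
  right_inv S := by by_cases h : y ∈ S <;> simp [h, Finset.insert_erase, Finset.erase_insert]

theorem reidx1 (y : Λ) (g : Finset Λ → ℂ) :
    ∑ S : Finset Λ, (if y ∈ S then g (S.erase y) else 0) = ∑ S, (if y ∈ S then 0 else g S) := by
  refine Fintype.sum_equiv (sw y) _ _ fun S => ?_
  by_cases h : y ∈ S <;> simp [sw, h]

theorem reidx2 (y : Λ) (g : Finset Λ → ℂ) :
    ∑ S : Finset Λ, (if y ∈ S then 0 else g (insert y S)) = ∑ S, (if y ∈ S then g S else 0) := by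
  refine Fintype.sum_equiv (sw y) _ _ fun S => ?_
  by_cases h : y ∈ S <;> simp [sw, h]

/-- Sum of the components. -/
theorem Gg_sum (T : Λ → Λ → ℂ) (f : Λ → ℂ) (k : ℕ) : ∀ (y : Λ) (u : Λ → ℝ),
    ∑ S : Finset Λ, Gg ν T f k y S u = yk T f (fun x => cl (u x)) k y := by
  induction k with
  | zero =>
    intro y u
    unfold Gg yk
    rw [Finset.sum_eq_single {y}]
    · simp [mu]
    · intro S _ hS
      simp [hS]
    · simp
  | succ k ih =>
    intro y u
    have e1 : yk T f (fun x => cl (u x)) (k + 1) y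
        = ∑ S : Finset Λ, mu y (Hh T (Gg ν T f k) y S) u := by
      show (cl (u y) : ℂ) * ∑ y', T y y' * yk T f (fun x => cl (u x)) k y' = _
      unfold mu Hh
      rw [← Finset.mul_sum, Finset.sum_comm]
      congr 1
      refine Finset.sum_congr rfl fun y' _ => ?_
      rw [← ih y' u, Finset.mul_sum]
    rw [e1]
    have e2 : ∀ S : Finset Λ, Gg ν T f (k + 1) y S u
        = (if y ∈ S then mu y (Hh T (Gg ν T f k) y (S.erase y)) u else 0)
          + ((if y ∈ S then Qy ν y (mu y (Hh T (Gg ν T f k) y S)) u else 0)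
          + (if y ∈ S then 0 else Ey ν y (mu y (Hh T (Gg ν T f k) y (insert y S))) u)) := by
      intro S
      show (if y ∈ S then _ else _ : (Λ → ℝ) → ℂ) u = _
      split_ifs <;> simp
    have e3 : ∀ S : Finset Λ, mu y (Hh T (Gg ν T f k) y S) u
        = (if y ∈ S then 0 else mu y (Hh T (Gg ν T f k) y S) u)
          + ((if y ∈ S then Qy ν y (mu y (Hh T (Gg ν T f k) y S)) u else 0)
          + (if y ∈ S then Ey ν y (mu y (Hh T (Gg ν T f k) y S)) u else 0)) := by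
      intro S
      split_ifs
      · simp [Qy]
      · simp
    rw [Finset.sum_congr rfl fun S _ => e2 S, Finset.sum_congr rfl fun S _ => e3 S]
    rw [Finset.sum_add_distrib, Finset.sum_add_distrib, Finset.sum_add_distrib,
      Finset.sum_add_distrib]
    congr 1
    · exact reidx1 y fun S => mu y (Hh T (Gg ν T f k) y S) u
    · congr 1
      exact reidx2 y fun S => Ey ν y (mu y (Hh T (Gg ν T f k) y S)) u

/-! ### The space of square integrable functions -/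

theorem memLp_BM {F : (Λ → ℝ) → ℂ} (hF : F ∈ BM Λ) : MemLp F 2 (PP Λ ν) := by
  obtain ⟨hm, C, hC⟩ := hF
  exact MemLp.of_bound hm.aestronglyMeasurable C (Filter.Eventually.of_forall hC)

/-- The class of a bounded measurable function. -/
def LL : BM Λ →ₗ[ℂ] Lp ℂ 2 (PP Λ ν) where
  toFun F := (memLp_BM ν F.2).toLp F.1
  map_add' F G := MemLp.toLp_add (memLp_BM ν F.2) (memLp_BM ν G.2)
  map_smul' c F := MemLp.toLp_const_smul c (memLp_BM ν F.2)

theorem LL_norm (F : BM Λ) : ‖LL ν F‖ ^ 2 = ∫ u, ‖F.1 u‖ ^ 2 ∂(PP Λ ν) := by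
  have h1 : inner ℂ (LL ν F) (LL ν F) = ((‖LL ν F‖ ^ 2 : ℝ) : ℂ) := by
    rw [inner_self_eq_norm_sq_to_K]; push_cast; rfl
  have h2 : inner ℂ (LL ν F) (LL ν F) = ((∫ u, ‖F.1 u‖ ^ 2 ∂(PP Λ ν) : ℝ) : ℂ) := by
    rw [L2.inner_def, ← integral_complex_ofReal]
    refine integral_congr_ae ?_
    have h3 : (LL ν F : (Λ → ℝ) → ℂ) =ᵐ[PP Λ ν] F.1 := (memLp_BM ν F.2).coeFn_toLp
    filter_upwards [h3] with u hu
    rw [hu, inner_self_eq_norm_sq_to_K]; push_cast; rfl
  rw [h1] at h2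
  exact_mod_cast h2

omit [DecidableEq Λ] [Fintype Λ] in
theorem cm_mem {A B : (Λ → ℝ) → ℂ} (hA : A ∈ BM Λ) (hB : B ∈ BM Λ) :
    (fun u => (starRingEnd ℂ) (A u) * B u) ∈ BM Λ := by
  obtain ⟨hm, C, hC⟩ := hA
  obtain ⟨hn, D, hD⟩ := hB
  refine ⟨(Complex.continuous_conj.measurable.comp hm).mul hn, C * D, fun u => ?_⟩
  rw [norm_mul, Complex.norm_conj]
  exact mul_le_mul (hC u) (hD u) (norm_nonneg _) ((norm_nonneg _).trans (hC u))

theorem orth {A B : (Λ → ℝ) → ℂ} (hA : A ∈ BM Λ) (hB : B ∈ BM Λ) (x : Λ)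
    (hAx : ∀ u t, A (Function.update u x t) = A u) (hB0 : ∀ u, Ey ν x B u = 0) :
    ∫ u, (starRingEnd ℂ) (A u) * B u ∂(PP Λ ν) = 0 := by
  rw [int_Ey ν (cm_mem hA hB) x]
  have : ∀ u, Ey ν x (fun u => (starRingEnd ℂ) (A u) * B u) u = 0 := fun u => by
    have := hB0 u
    unfold Ey at this ⊢
    simp only [hAx]
    rw [integral_const_mul, this, mul_zero]
  simp [this]

theorem orth' {A B : (Λ → ℝ) → ℂ} (hA : A ∈ BM Λ) (hB : B ∈ BM Λ) (x : Λ)
    (hAx : ∀ u t, A (Function.update u x t) = A u) (hB0 : ∀ u, Ey ν x B u = 0) :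
    ∫ u, (starRingEnd ℂ) (B u) * A u ∂(PP Λ ν) = 0 := by
  have h := orth ν hA hB x hAx hB0
  have h2 : ∫ u, (starRingEnd ℂ) (B u) * A u ∂(PP Λ ν)
      = (starRingEnd ℂ) (∫ u, (starRingEnd ℂ) (A u) * B u ∂(PP Λ ν)) := by
    rw [← integral_conj]
    congr 1
    ext u
    simp [mul_comm]
  rw [h2, h, map_zero]

theorem int_sq_BM {F : (Λ → ℝ) → ℂ} (hF : F ∈ BM Λ) :
    Integrable (fun u => ‖F u‖ ^ 2) (PP Λ ν) := by
  obtain ⟨hm, C, hC⟩ := hF
  refine Integrable.of_bound (hm.norm.pow_const 2).aestronglyMeasurable (C ^ 2)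
    (Filter.Eventually.of_forall fun u => ?_)
  rw [Real.norm_eq_abs, abs_of_nonneg (by positivity)]
  exact pow_le_pow_left₀ (norm_nonneg _) (hC u) 2

theorem pyth {F : (Λ → ℝ) → ℂ} (hF : F ∈ BM Λ) (y : Λ) :
    ∫ u, ‖F u‖ ^ 2 ∂(PP Λ ν)
      = ∫ u, ‖Ey ν y F u‖ ^ 2 ∂(PP Λ ν) + ∫ u, ‖Qy ν y F u‖ ^ 2 ∂(PP Λ ν) := by
  have hE := Ey_mem ν hF y
  have hQ := Qy_mem ν hF y
  have h0 := orth ν hE hQ y (fun u t => Ey_Ey_upd ν F y u t) (fun u => Ey_Qy ν hF y u)
  have h1 : ∀ u, ‖F u‖ ^ 2 = ‖Ey ν y F u‖ ^ 2 + ‖Qy ν y F u‖ ^ 2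
      + 2 * ((starRingEnd ℂ) (Ey ν y F u) * Qy ν y F u).re := fun u => by
    have : F u = Qy ν y F u + Ey ν y F u := by unfold Qy; ring
    conv_lhs => rw [this]
    rw [← Complex.normSq_eq_norm_sq, ← Complex.normSq_eq_norm_sq, ← Complex.normSq_eq_norm_sq,
      Complex.normSq_add, mul_comm (starRingEnd ℂ (Ey ν y F u))]
    ring
  have h2 : ∫ u, ((starRingEnd ℂ) (Ey ν y F u) * Qy ν y F u).re ∂(PP Λ ν) = 0 := by
    have := integral_re (int_BM ν (cm_mem hE hQ))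
    rw [h0] at this
    simpa using this
  rw [integral_congr_ae (Filter.Eventually.of_forall h1)]
  rw [integral_add, integral_add (int_sq_BM ν hE) (int_sq_BM ν hQ), integral_const_mul, h2]
  · ring
  · exact (int_sq_BM ν hE).add (int_sq_BM ν hQ)
  · exact ((int_BM ν (cm_mem hE hQ)).re).const_mul 2

theorem norm_Ey (F : BM Λ) (y : Λ) : ‖LL ν ⟨Ey ν y F.1, Ey_mem ν F.2 y⟩‖ ≤ ‖LL ν F‖ := by
  refine (pow_le_pow_iff_left₀ (norm_nonneg _) (norm_nonneg _) two_ne_zero).mp ?_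
  rw [LL_norm, LL_norm, pyth ν F.2 y]
  have : 0 ≤ ∫ u, ‖Qy ν y F.1 u‖ ^ 2 ∂(PP Λ ν) := integral_nonneg fun u => by positivity
  linarith

theorem norm_Qy (F : BM Λ) (y : Λ) : ‖LL ν ⟨Qy ν y F.1, Qy_mem ν F.2 y⟩‖ ≤ ‖LL ν F‖ := by
  refine (pow_le_pow_iff_left₀ (norm_nonneg _) (norm_nonneg _) two_ne_zero).mp ?_
  rw [LL_norm, LL_norm, pyth ν F.2 y]
  have : 0 ≤ ∫ u, ‖Ey ν y F.1 u‖ ^ 2 ∂(PP Λ ν) := integral_nonneg fun u => by positivity
  linarith

theorem norm_mu (F : BM Λ) (y : Λ) : ‖LL ν ⟨mu y F.1, mu_mem F.2 y⟩‖ ≤ ‖LL ν F‖ := by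
  refine (pow_le_pow_iff_left₀ (norm_nonneg _) (norm_nonneg _) two_ne_zero).mp ?_
  rw [LL_norm, LL_norm]
  refine integral_mono (int_sq_BM ν (mu_mem F.2 y)) (int_sq_BM ν F.2) fun u => ?_
  refine pow_le_pow_left₀ (norm_nonneg _) ?_ 2
  show ‖(cl (u y) : ℂ) * F.1 u‖ ≤ ‖F.1 u‖
  rw [norm_mul, Complex.norm_real, Real.norm_eq_abs]
  calc |cl (u y)| * ‖F.1 u‖ ≤ 1 * ‖F.1 u‖ := mul_le_mul_of_nonneg_right (cl_abs _) (norm_nonneg _)
    _ = ‖F.1 u‖ := one_mul _

theorem sum_orth {ι : Type} [Fintype ι] (A : ι → (Λ → ℝ) → ℂ) (hA : ∀ i, A i ∈ BM Λ)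
    (ho : ∀ i j, i ≠ j → ∫ u, (starRingEnd ℂ) (A i u) * A j u ∂(PP Λ ν) = 0) :
    ∫ u, ‖∑ i, A i u‖ ^ 2 ∂(PP Λ ν) = ∑ i, ∫ u, ‖A i u‖ ^ 2 ∂(PP Λ ν) := by
  have h : ((∫ u, ‖∑ i, A i u‖ ^ 2 ∂(PP Λ ν) : ℝ) : ℂ)
      = ((∑ i, ∫ u, ‖A i u‖ ^ 2 ∂(PP Λ ν) : ℝ) : ℂ) := by
    rw [← integral_complex_ofReal]
    have e1 : ∀ u, ((‖∑ i, A i u‖ ^ 2 : ℝ) : ℂ)
        = ∑ i, ∑ j, (starRingEnd ℂ) (A i u) * A j u := fun u => by
      push_cast
      rw [← Complex.conj_mul', map_sum, Finset.sum_mul_sum]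
    rw [integral_congr_ae (Filter.Eventually.of_forall e1)]
    rw [integral_finsetSum _ fun i _ => integrable_finsetSum _ fun j _ =>
      int_BM ν (cm_mem (hA i) (hA j))]
    push_cast
    refine Finset.sum_congr rfl fun i _ => ?_
    rw [integral_finsetSum _ fun j _ => int_BM ν (cm_mem (hA i) (hA j))]
    classical
    rw [Finset.sum_eq_single i (fun j _ hj => ho i j hj.symm) (by simp)]
    rw [← integral_complex_ofReal]
    refine integral_congr_ae (Filter.Eventually.of_forall fun u => ?_)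
    show _ = ((‖A i u‖ ^ 2 : ℝ) : ℂ)
    push_cast
    rw [← Complex.conj_mul']
  exact_mod_cast h

/-- The chaos components in the space of square integrable functions. -/
def gL (T : Λ → Λ → ℂ) (f : Λ → ℂ) (k : ℕ) (y : Λ) (S : Finset Λ) : Lp ℂ 2 (PP Λ ν) :=
  LL ν ⟨Gg ν T f k y S, Gg_mem ν T f k y S⟩

theorem gL_Hh (T : Λ → Λ → ℂ) (f : Λ → ℂ) (k : ℕ) (y : Λ) (S : Finset Λ) :
    ∑ y', T y y' • gL ν T f k y' S
      = LL ν ⟨Hh T (Gg ν T f k) y S, Hh_mem T _ (Gg_mem ν T f k) y S⟩ := by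
  unfold gL
  simp only [← map_smul]
  rw [← map_sum]
  congr 1
  ext u
  simp [Hh, Finset.sum_apply]

theorem main (h1 : S_CG1) : S_CG2 := by
  intro ν _ hb h0 Λ _ _ T M θ b κ hM hb0 hκ hT1 hT2 hT3 hT4 hθ hbM hκ2 f k hk
  have key := h1 Λ (Lp ℂ 2 (PP Λ ν)) T M θ b κ hM hb0 hκ hT1 hT2 hT3 hT4 hθ hbM hκ2 (gL ν T f)
    (fun y => ‖f y‖) ?_ ?_ ?_ ?_ k hk
  · -- almost everywhere equality
    have hae : ∀ᵐ u ∂(PP Λ ν), ∀ y, yk T f u k y = ∑ S : Finset Λ, Gg ν T f k y S u := by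
      have hall : ∀ᵐ u ∂(PP Λ ν), ∀ x : Λ, |u x| ≤ 1 := by
        rw [ae_all_iff]
        intro x
        exact (measurePreserving_eval (fun _ : Λ => ν) x).quasiMeasurePreserving.ae hb
      filter_upwards [hall] with u hu y
      rw [Gg_sum ν T f k y u]
      congr 1
      ext x
      exact (cl_eq (hu x)).symm
    have hm := Gg_mem ν T f k
    have hS : ∀ y, (fun u => ∑ S : Finset Λ, Gg ν T f k y S u) ∈ BM Λ := fun y => by
      have : (fun u => ∑ S : Finset Λ, Gg ν T f k y S u) = ∑ S : Finset Λ, Gg ν T f k y S := by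
        ext u; simp
      rw [this]
      exact Submodule.sum_mem _ fun S _ => hm y S
    have ho : ∀ y (S S' : Finset Λ), S ≠ S' →
        ∫ u, (starRingEnd ℂ) (Gg ν T f k y S u) * Gg ν T f k y S' u ∂(PP Λ ν) = 0 := by
      intro y S S' hSS
      have : ∃ x, (x ∈ S ∧ x ∉ S') ∨ (x ∈ S' ∧ x ∉ S) := by
        by_contra hcon
        push Not at hcon
        refine hSS (Finset.ext fun x => ⟨fun hx => ?_, fun hx => ?_⟩)
        · by_contra h; exact h ((hcon x).1 hx)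
        · by_contra h; exact h ((hcon x).2 hx)
      obtain ⟨x, ⟨hx, hx'⟩ | ⟨hx, hx'⟩⟩ := this
      · exact orth' ν (hm y S') (hm y S) x (fun u t => (Gg_dep ν T f k y S').upd hx' u t)
          (fun u => Gg_mean ν hb h0 T f k y S x hx u)
      · exact orth ν (hm y S) (hm y S') x (fun u t => (Gg_dep ν T f k y S).upd hx' u t)
          (fun u => Gg_mean ν hb h0 T f k y S' x hx u)
    constructor
    · have e1 : ∫ u, (∑ y, ‖yk T f u k y‖ ^ 2) ∂(PP Λ ν)
          = ∑ y, ∑ S : Finset Λ, ‖gL ν T f k y S‖ ^ 2 := by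
        have e2 : ∫ u, (∑ y, ‖yk T f u k y‖ ^ 2) ∂(PP Λ ν)
            = ∫ u, (∑ y, ‖∑ S : Finset Λ, Gg ν T f k y S u‖ ^ 2) ∂(PP Λ ν) := by
          refine integral_congr_ae ?_
          filter_upwards [hae] with u hu
          exact Finset.sum_congr rfl fun y _ => by rw [hu y]
        rw [e2, integral_finsetSum _ fun y _ => int_sq_BM ν (hS y)]
        refine Finset.sum_congr rfl fun y _ => ?_
        rw [sum_orth ν _ (hm y) (ho y)]
        exact Finset.sum_congr rfl fun S _ => (LL_norm ν ⟨_, hm y S⟩).symm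
      rw [e1]
      exact key.1
    · refine le_trans (Finset.sum_le_sum fun y _ => ?_) key.2
      have e3 : ∫ u, yk T f u k y ∂(PP Λ ν) = ∫ u, Gg ν T f k y ∅ u ∂(PP Λ ν) := by
        have e4 : ∫ u, yk T f u k y ∂(PP Λ ν)
            = ∫ u, (∑ S : Finset Λ, Gg ν T f k y S u) ∂(PP Λ ν) := by
          refine integral_congr_ae ?_
          filter_upwards [hae] with u hu
          exact hu y
        rw [e4, integral_finsetSum _ fun S _ => int_BM ν (hm y S)]
        refine Finset.sum_eq_single ∅ (fun S _ hS0 => ?_) (by simp)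
        obtain ⟨x, hx⟩ := Finset.nonempty_iff_ne_empty.mpr hS0
        rw [int_Ey ν (hm y S) x]
        simp [Gg_mean ν hb h0 T f k y S x hx]
      rw [e3]
      have hc : ∀ u, Gg ν T f k y ∅ u = Gg ν T f k y ∅ 0 := fun u =>
        Gg_dep ν T f k y ∅ u 0 (by simp)
      have e5 : ‖gL ν T f k y ∅‖ ^ 2 = ‖Gg ν T f k y ∅ 0‖ ^ 2 := by
        unfold gL
        rw [LL_norm]
        simp [hc]
      rw [e5]
      simp [hc]
  · intro y S hS
    unfold gL Gg
    simp only [hS, if_false]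
    exact (LL ν).map_zero
  · intro y
    unfold gL Gg
    simp only [if_true]
    have hc : (fun _ => f y : (Λ → ℝ) → ℂ) ∈ BM Λ := ⟨measurable_const, ‖f y‖, fun _ => le_rfl⟩
    refine (norm_mu ν ⟨_, hc⟩ y).trans ?_
    refine (pow_le_pow_iff_left₀ (norm_nonneg _) (norm_nonneg _) two_ne_zero).mp ?_
    rw [LL_norm]
    simp
  · intro k y S hy
    rw [gL_Hh, gL_Hh]
    have hm := Gg_mem ν T f k
    have hA := mu_mem (Hh_mem T _ hm y (S.erase y)) y
    have hB := Qy_mem ν (mu_mem (Hh_mem T _ hm y S) y) y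
    have e : gL ν T f (k + 1) y S = LL ν ⟨_, hA⟩ + LL ν ⟨_, hB⟩ := by
      rw [← map_add]
      unfold gL
      congr 1
      ext u
      show Gg ν T f (k + 1) y S u = _
      conv_lhs => unfold Gg
      simp [hy]
    rw [e]
    refine (norm_add_le _ _).trans (add_le_add (norm_mu ν ⟨_, Hh_mem T _ hm y (S.erase y)⟩ y) ?_)
    exact (norm_Qy ν ⟨_, mu_mem (Hh_mem T _ hm y S) y⟩ y).trans
      (norm_mu ν ⟨_, Hh_mem T _ hm y S⟩ y)
  · intro k y S hy
    rw [gL_Hh]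
    have hm := Gg_mem ν T f k
    have hB := Ey_mem ν (mu_mem (Hh_mem T _ hm y (insert y S)) y) y
    have e : gL ν T f (k + 1) y S = LL ν ⟨_, hB⟩ := by
      unfold gL
      congr 1
      ext u
      show Gg ν T f (k + 1) y S u = _
      conv_lhs => unfold Gg
      simp [hy]
    rw [e]
    exact (norm_Ey ν ⟨_, mu_mem (Hh_mem T _ hm y (insert y S)) y⟩ y).trans
      (norm_mu ν ⟨_, Hh_mem T _ hm y (insert y S)⟩ y)

end

end Pool.Agent.N79.KS.CG2
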